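import Pool.Agent.H24.Word3

namespace Pool.Agent.Results.MP_bde658_co.AllRep

open Pool.Agent.H24

/-- `a` and `b` alternate in `w`: both occur, and after deleting all other letters no two
consecutive letters are equal. -/
def Alt {V : Type} [DecidableEq V] (w : List V) (a b : V) : Prop :=
  a ∈ w ∧ b ∈ w ∧ (w.filter (fun x => x = a ∨ x = b)).IsChain (· ≠ ·)

/-- Word-representable graphs. -/
def Rep {V : Type} [DecidableEq V] (G : SimpleGraph V) : Prop :=
  ∃ w : List V, (∀ v, v ∈ w) ∧ ∀ a b, a ≠ b → (G.Adj a b ↔ Alt w a b)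

/-- The circulant graph `C_{2n}(x,1,n)`: `i` is adjacent to `i ± 1`, `i ± x`, `i + n`. -/
def C (n x : ℕ) : SimpleGraph (ZMod (2 * n)) :=
  SimpleGraph.circulantGraph {1, (x : ZMod (2 * n)), (n : ZMod (2 * n))}

lemma rep_of {V : Type} [DecidableEq V] [Fintype V] (G : SimpleGraph V) (Le : V → V → Prop)
    (X : Word.Ax G.Adj Le) : Rep G := by
  obtain ⟨w, hw, h⟩ := Word.hkp G Le X
  refine ⟨w, hw, fun a b hab => ?_⟩
  rw [h a b hab]
  simp only [Alt, hw, true_and]

lemma val_sub_iff {N : ℕ} [NeZero N] (a b d : ZMod N) :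
    a - b = d ↔ a.val = b.val + d.val ∨ a.val + N = b.val + d.val := by
  have ha := ZMod.val_lt a
  have hb := ZMod.val_lt b
  have hd := ZMod.val_lt d
  rw [sub_eq_iff_eq_add', ← (ZMod.val_injective N).eq_iff, ZMod.val_add]
  by_cases h : b.val + d.val < N
  · rw [Nat.mod_eq_of_lt h]; omega
  · rw [Nat.mod_eq_sub_mod (by omega), Nat.mod_eq_of_lt (by omega)]; omega

lemma adj_iff (n x : ℕ) (a b : ZMod (2 * n)) : (C n x).Adj a b ↔ a ≠ b ∧
    ((a - b = 1 ∨ a - b = x ∨ a - b = n) ∨ (b - a = 1 ∨ b - a = x ∨ b - a = n)) := by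
  simp [C, SimpleGraph.circulantGraph_adj]

lemma adj_val (n x : ℕ) [NeZero (2 * n)] (h1 : 1 < x) (h2 : x < n) (a b : ZMod (2 * n)) :
    (C n x).Adj a b ↔ a.val = b.val + 1 ∨ a.val + 2 * n = b.val + 1 ∨ a.val = b.val + x ∨
      a.val + 2 * n = b.val + x ∨ a.val = b.val + n ∨ b.val = a.val + n ∨ b.val = a.val + 1 ∨
      b.val + 2 * n = a.val + 1 ∨ b.val = a.val + x ∨ b.val + 2 * n = a.val + x := by
  have e1 : (1 : ZMod (2 * n)).val = 1 := by
    have := ZMod.val_cast_of_lt (n := 2 * n) (a := 1) (by omega)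
    simpa using this
  have e2 : (x : ZMod (2 * n)).val = x := ZMod.val_cast_of_lt (by omega)
  have e3 : (n : ZMod (2 * n)).val = n := ZMod.val_cast_of_lt (by omega)
  have ha := ZMod.val_lt a
  have hb := ZMod.val_lt b
  rw [adj_iff, Ne, ← (ZMod.val_injective _).eq_iff]
  simp only [val_sub_iff, e1, e2, e3]
  omega

lemma by_char (n x k : ℕ) (h1 : 1 < x) (h2 : x < n) (hk : k % 2 = 1) (k1 : n < 2 * k)
    (k2 : 2 * k < 3 * n)
    (k3 : (n < 2 * (k * x % (2 * n)) ∧ 2 * (k * x % (2 * n)) < 3 * n) ∨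
      (2 * x = n ∧ n ≤ 2 * (k * x % (2 * n)) ∧ 2 * (k * x % (2 * n)) ≤ 3 * n)) : Rep (C n x) := by
  have : NeZero (2 * n) := ⟨by omega⟩
  have e1 : ((k : ZMod (2 * n)) * 1).val = k := by
    rw [mul_one]; exact ZMod.val_cast_of_lt (by omega)
  have e2 : ((k : ZMod (2 * n)) * x).val = k * x % (2 * n) := by
    rw [← Nat.cast_mul, ZMod.val_natCast]
  have e3 : ((k : ZMod (2 * n)) * n).val = n := by
    obtain ⟨j, rfl⟩ : ∃ j, k = 2 * j + 1 := ⟨k / 2, by omega⟩
    rw [← Nat.cast_mul, ZMod.val_natCast, show (2 * j + 1) * n = n + (2 * n) * j by ring,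
      Nat.add_mul_mod_self_left, Nat.mod_eq_of_lt (by omega)]
  have st : ∀ a b d : ZMod (2 * n), a - b = d →
      ((k : ZMod (2 * n)) * a).val = (k * b).val + (k * d).val ∨
      ((k : ZMod (2 * n)) * a).val + 2 * n = (k * b).val + (k * d).val := by
    intro a b d h
    rw [← val_sub_iff, ← mul_sub, h]
  refine rep_of _ _ (Word.circ (C n x) (fun a => 2 * ((k : ZMod (2 * n)) * a).val) n (by omega)
    (fun u v h => ?_) (fun u v w h h' t t' => ?_))
  · rcases ((adj_iff n x u v).1 h).2 with (h | h | h) | (h | h | h) <;>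
      have := st _ _ _ h <;> simp only [e1, e2, e3] at this <;> omega
  · have tight : ∀ u v : ZMod (2 * n), (C n x).Adj u v →
        2 * ((k : ZMod (2 * n)) * v).val = 2 * ((k : ZMod (2 * n)) * u).val + n →
        2 * x = n ∧ (u - v = x ∨ v - u = x) := by
      intro u v h t
      rcases ((adj_iff n x u v).1 h).2 with (h | h | h) | (h | h | h) <;>
        have := st _ _ _ h <;> simp only [e1, e2, e3] at this <;>
        first | omega | exact ⟨by omega, Or.inl h⟩ | exact ⟨by omega, Or.inr h⟩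
    obtain ⟨hx, a1⟩ := tight u v h t
    obtain ⟨-, a2⟩ := tight v w h' t'
    have hne : u ≠ w := by
      rintro rfl
      omega
    have hn : (n : ZMod (2 * n)) = 2 * x := by rw [← hx]; push_cast; rfl
    rw [adj_iff]
    refine ⟨hne, ?_⟩
    rcases a1 with a1 | a1 <;> rcases a2 with a2 | a2
    · exact Or.inl (Or.inr (Or.inr (by rw [hn]; linear_combination a1 + a2)))
    · exact absurd (by linear_combination a1 - a2) hne
    · exact absurd (by linear_combination a2 - a1) hne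
    · exact Or.inr (Or.inr (Or.inr (by rw [hn]; linear_combination a1 + a2)))

lemma ex_char (n x : ℕ) (hn : 9 ≤ n) (h1 : 1 < x) (h2 : x + 1 < n) (h3 : 2 * x ≠ n) :
    ∃ k, k % 2 = 1 ∧ n < 2 * k ∧ 2 * k < 3 * n ∧
      n < 2 * (k * x % (2 * n)) ∧ 2 * (k * x % (2 * n)) < 3 * n := by
  by_contra hc
  push Not at hc
  obtain ⟨k0, a1, a2, a3⟩ : ∃ k0, k0 % 2 = 1 ∧ n < 2 * k0 ∧ 2 * k0 ≤ n + 4 := by
    by_cases h : (n / 2 + 1) % 2 = 1
    · exact ⟨n / 2 + 1, h, by omega, by omega⟩
    · exact ⟨n / 2 + 2, by omega, by omega, by omega⟩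
  let y : ℕ → ℕ := fun i => (k0 + 2 * i) * x % (2 * n)
  have ylt : ∀ i, y i < 2 * n := fun i => Nat.mod_lt _ (by omega)
  have ystep : ∀ i, y (i + 1) = y i + 2 * x ∨ y (i + 1) + 2 * n = y i + 2 * x := by
    intro i
    have : y (i + 1) = (y i + 2 * x) % (2 * n) := by
      simp only [y]
      rw [Nat.mod_add_mod]
      congr 1
      ring
    have hy := ylt i
    by_cases h : y i + 2 * x < 2 * n
    · rw [Nat.mod_eq_of_lt h] at this; omega
    · rw [Nat.mod_eq_sub_mod (by omega), Nat.mod_eq_of_lt (by omega)] at this; omega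
  have ybad : ∀ i ≤ n / 4 + 1, 2 * y i ≤ n ∨ 3 * n ≤ 2 * y i := by
    intro i hi
    have := hc (k0 + 2 * i) (by omega) (by omega) (by omega)
    simp only [y]
    omega
  let z : ℕ → ℕ := fun i => if 2 * y i ≤ n then y i + 2 * n else y i
  have hz : ∀ i ≤ n / 4 + 1, (2 * y i ≤ n ∧ z i = y i + 2 * n) ∨ (3 * n ≤ 2 * y i ∧ z i = y i) := by
    intro i hi
    have := ybad i hi
    simp only [z]
    split_ifs <;> omega
  clear_value y z
  have mono : ∀ i ≤ n / 4 + 1, (2 * x < n → z 0 + 4 * i ≤ z i) ∧ (n < 2 * x → z i + 4 * i ≤ z 0) := by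
    intro i
    induction i with
    | zero => simp
    | succ i ih =>
      intro hi
      have := ih (by omega)
      have := hz i (by omega)
      have := hz (i + 1) hi
      have := ystep i
      have := ylt i
      have := ylt (i + 1)
      omega
  have := mono _ le_rfl
  have := hz 0 (by omega)
  have := hz _ le_rfl
  have := ylt 0
  have := ylt (n / 4 + 1)
  omega

lemma twins (x : ℕ) (h1 : 1 < x) : Rep (C (x + 1) x) := by
  have : NeZero (2 * (x + 1)) := ⟨by omega⟩
  have ex : ∀ a : ZMod (2 * (x + 1)), ∃ r h : ℕ, r ≤ x ∧ (a.val = r ∨ a.val = r + x + 1) ∧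
      ((r = x ∧ h = 2) ∨ (r < x ∧ h = r % 2)) := by
    intro a
    have := ZMod.val_lt a
    by_cases e : a.val ≤ x
    · by_cases e2 : a.val = x
      · exact ⟨a.val, 2, by omega⟩
      · exact ⟨a.val, a.val % 2, by omega⟩
    · by_cases e2 : a.val = 2 * x + 1
      · exact ⟨x, 2, by omega⟩
      · exact ⟨a.val - x - 1, (a.val - x - 1) % 2, by omega⟩
  choose r h hr hv hh using ex
  have adj : ∀ a b, (C (x + 1) x).Adj a b ↔ (r a = r b ∧ a.val ≠ b.val) ∨ r a = r b + 1 ∨
      r b = r a + 1 ∨ (r a = 0 ∧ r b = x) ∨ (r b = 0 ∧ r a = x) := by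
    intro a b
    rw [adj_val (x + 1) x h1 (by omega)]
    have := hr a; have := hr b; have := hv a; have := hv b
    omega
  have eqv : ∀ a b : ZMod (2 * (x + 1)), a = b ↔ a.val = b.val :=
    fun a b => (ZMod.val_injective _).eq_iff.symm
  have rv : ∀ a b, a.val = b.val → r a = r b := by
    intro a b e
    have := hr a; have := hr b; have := hv a; have := hv b
    omega
  let P : ℕ → ℕ → Prop := fun i j => i = j + 1 ∨ j = i + 1 ∨ (i = 0 ∧ j = x) ∨ (j = 0 ∧ i = x)
  have adj' : ∀ a b, (C (x + 1) x).Adj a b ↔ (r a = r b ∧ a.val ≠ b.val) ∨ P (r a) (r b) := adj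
  have hP : ∀ a b, P (r a) (r b) → h a ≠ h b := by
    intro a b e
    have := hh a; have := hh b
    simp only [P] at e
    omega
  have hPs : ∀ i j, P i j → P j i := by
    intro i j e
    simp only [P] at e ⊢
    omega
  have hrh : ∀ a b, r a = r b → h a = h b := by
    intro a b e
    have := hh a; have := hh b
    omega
  have h2 : ∀ a, h a ≤ 2 := by
    intro a
    have := hh a
    omega
  clear_value P
  refine rep_of _ (fun a b => (r a = r b ∧ a.val ≤ b.val) ∨ (h a < h b ∧ P (r a) (r b)) ∨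
    h a + 2 ≤ h b) ⟨fun a => Or.inl ⟨rfl, le_rfl⟩, ?_, ?_, fun h => h.symm, ?_, ?_⟩
  · intro a b c k1 k2
    have := hrh a b; have := hrh b c
    rcases k1 with k1 | k1 | k1 <;> rcases k2 with k2 | k2 | k2
    · exact Or.inl ⟨by omega, by omega⟩
    · exact Or.inr (Or.inl ⟨by omega, k1.1 ▸ k2.2⟩)
    · exact Or.inr (Or.inr (by omega))
    · exact Or.inr (Or.inl ⟨by omega, k2.1 ▸ k1.2⟩)
    all_goals exact Or.inr (Or.inr (by omega))
  · intro a b k1 k2
    have := hrh a b
    rw [eqv]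
    rcases k1 with k1 | ⟨k1, -⟩ | k1 <;> rcases k2 with k2 | ⟨k2, -⟩ | k2 <;> omega
  · intro a b k
    rcases (adj' a b).1 k with k | k
    · rcases le_total a.val b.val with e | e
      · exact Or.inl (Or.inl ⟨k.1, e⟩)
      · exact Or.inr (Or.inl ⟨k.1.symm, e⟩)
    · rcases lt_or_gt_of_ne (hP a b k) with e | e
      · exact Or.inl (Or.inr (Or.inl ⟨e, k⟩))
      · exact Or.inr (Or.inr (Or.inl ⟨e, hPs _ _ k⟩))
  · intro a b u v k k1 k2 k3
    rw [eqv, adj']
    rcases k2 with k2 | k2 | k2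
    · by_cases e : u.val = v.val
      · exact Or.inl e
      · exact Or.inr (Or.inl ⟨k2.1, e⟩)
    · exact Or.inr (Or.inr k2.2)
    have := h2 a; have := h2 b; have := h2 u; have := h2 v
    have := hrh a b; have := hrh a u; have := hrh v b
    rcases k1 with k1 | ⟨k1, -⟩ | k1 <;> rcases k3 with k3 | ⟨k3, -⟩ | k3 <;> try omega
    rcases (adj' a b).1 k with k | k
    · omega
    · exact Or.inr (Or.inr (k1.1 ▸ k3.1 ▸ k))

def tb : List ℕ := [3141, 3279, 4, 12, 1116, 3324, 64, 192, 1476, 4044, 1024, 3072]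

def A (a b : Fin 12) : Bool := (a - b).1 == 1 || (a - b).1 == 2 || (a - b).1 == 6 ||
  (a - b).1 == 10 || (a - b).1 == 11

def L (a b : Fin 12) : Bool := (tb.getD a.1 0).testBit b.1

lemma six : Rep (C 6 2) := by
  have adj : ∀ a b : ZMod (2 * 6), (C 6 2).Adj a b ↔ A a b = true := by
    intro a b
    rw [adj_iff]
    revert a b
    decide +kernel
  have k1 : ∀ a : Fin 12, L a a = true := by decide +kernel
  have k2 : ∀ a b c : Fin 12, L a b = true → L b c = true → L a c = true := by decide +kernel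
  have k3 : ∀ a b : Fin 12, L a b = true → L b a = true → a = b := by decide +kernel
  have k4 : ∀ a b : Fin 12, A a b = true → L a b = true ∨ L b a = true := by decide +kernel
  have k5 : ∀ a b : Fin 12, A a b = true → ∀ u, L a u = true → ∀ v, L u v = true → L v b = true →
    u = v ∨ A u v = true := by decide +kernel
  refine rep_of _ (fun a b : ZMod (2 * 6) => L a b = true)
    ⟨k1, k2 _ _ _, k3 _ _, fun h => h.symm, fun h => k4 _ _ ((adj _ _).1 h), ?_⟩
  intro a b u v h h1 h2 h3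
  rw [adj] at h ⊢
  exact k5 a b h u h1 v h2 h3

/-- Every circulant graph `C_{2n}(x,1,n)` with `1 < x < n` is word-representable. -/
theorem result (n x : ℕ) (h1 : 1 < x) (h2 : x < n) : Rep (C n x) := by
  by_cases e1 : x + 1 = n
  · subst e1; exact twins x h1
  by_cases e2 : 2 * x = n
  · subst e2
    refine by_char _ x (2 * x + 1) h1 h2 (by omega) (by omega) (by omega) (Or.inr ⟨rfl, ?_⟩)
    rcases Nat.even_or_odd' x with ⟨j, rfl | rfl⟩
    · rw [show (2 * (2 * j) + 1) * (2 * j) = 2 * j + (2 * (2 * (2 * j))) * j by ring,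
        Nat.add_mul_mod_self_left, Nat.mod_eq_of_lt (by omega)]
      omega
    · rw [show (2 * (2 * j + 1) + 1) * (2 * j + 1) = 3 * (2 * j + 1) + (2 * (2 * (2 * j + 1))) * j
        by ring, Nat.add_mul_mod_self_left, Nat.mod_eq_of_lt (by omega)]
      omega
  by_cases e3 : n = 6 ∧ x = 2
  · obtain ⟨rfl, rfl⟩ := e3
    exact six
  obtain ⟨k, k0, k1, k2, k3⟩ : ∃ k, k % 2 = 1 ∧ n < 2 * k ∧ 2 * k < 3 * n ∧
      n < 2 * (k * x % (2 * n)) ∧ 2 * (k * x % (2 * n)) < 3 * n := by
    by_cases hn : 9 ≤ n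
    · exact ex_char n x hn h1 (by omega) e2
    · have : ∃ k < 12, k % 2 = 1 ∧ n < 2 * k ∧ 2 * k < 3 * n ∧
          n < 2 * (k * x % (2 * n)) ∧ 2 * (k * x % (2 * n)) < 3 * n := by
        have hn' : n < 9 := by omega
        interval_cases n <;> interval_cases x <;> first | omega | decide
      obtain ⟨k, -, hk⟩ := this
      exact ⟨k, hk⟩
  exact by_char n x k h1 h2 k0 k1 k2 (Or.inl k3)

end Pool.Agent.Results.MP_bde658_co.AllRep
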